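import Pool.Agent.MT100.Defs

/-! Statements of the modules of MT100 (analytic and arithmetic part).  Paper: PAPER_MT100.md. -/

set_option autoImplicit false

namespace Pool.Agent.MT100

open Matrix Polynomial

/-! ### Linear algebra -/

/-- SYM: the symmetric square -/
def SymStmt : Prop :=
  (∀ (r : ℕ) (R : Type) [CommRing R] (M M' : Matrix (Fin r) (Fin r) R),
    sy (M * M') = sy M * sy M') ∧
  (∀ (r : ℕ) (R : Type) [CommRing R], sy (1 : Matrix (Fin r) (Fin r) R) = 1) ∧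
  (∀ (r : ℕ) (R R' : Type) [CommRing R] [CommRing R'] (f : R →+* R')
    (M : Matrix (Fin r) (Fin r) R), sy (M.map f) = (sy M).map f) ∧
  (∀ (r : ℕ) (R : Type) [CommRing R] (M : Matrix (Fin r) (Fin r) R) (F : Fin r → R) (β : SI r),
    (M *ᵥ F) β.1.1 * (M *ᵥ F) β.1.2 = ∑ α : SI r, sy M β α * (F α.1.1 * F α.1.2))

/-- KRN: tensor products -/
def KrnStmt : Prop :=
  (∀ (ι m : Type) [Fintype ι] [Fintype m] [DecidableEq ι] [DecidableEq m] (R : Type) [CommRing R]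
    (A A' : ι → Matrix m m R), kr (fun s => A s * A' s) = kr A * kr A') ∧
  (∀ (ι m : Type) [Fintype ι] [Fintype m] [DecidableEq ι] [DecidableEq m] (R : Type) [CommRing R],
    kr (fun _ : ι => (1 : Matrix m m R)) = 1) ∧
  (∀ (ι m : Type) [Fintype ι] (R R' : Type) [CommRing R] [CommRing R'] (f : R →+* R')
    (A : ι → Matrix m m R), kr (fun s => (A s).map f) = (kr A).map f)

/-- ELI: elimination of the unknown matrix `MM` (Lemma E) -/
def EliStmt : Prop :=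
  ∀ (m : Type) [Fintype m] [DecidableEq m] (J : ℕ) (q : Fin J → m → ℚ) (MM : Matrix m m ℂ)
    (x : Fin J → m → ℂ), (∀ i, q i ≠ 0) → IsUnit MM.det → Fintype.card m ^ 2 < J →
    (∀ i, ∑ a, ∑ b, (q i a : ℂ) * MM a b * x i b = 0) →
    ∃ (k : ℕ) (hk : k ≤ J) (c : (Fin k → m) → ℚ), c ≠ 0 ∧
      ∑ a : Fin k → m, (c a : ℂ) * ∏ i, x (Fin.castLE hk i) (a i) = 0

/-! ### G-functions -/

/-- GCL: the power series of G-type form a ring containing the polynomials -/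
def GclStmt : Prop :=
  (∀ p : ℚ[X], GType (p : PowerSeries ℚ)) ∧
  (∀ f g : PowerSeries ℚ, GType f → GType g → GType (f + g)) ∧
  (∀ f g : PowerSeries ℚ, GType f → GType g → GType (f - g)) ∧
  (∀ f g : PowerSeries ℚ, GType f → GType g → GType (f * g)) ∧
  (∀ (σ : Type) (s : Finset σ) (f : σ → PowerSeries ℚ), (∀ i ∈ s, GType (f i)) →
    GType (∑ i ∈ s, f i)) ∧
  (∀ (σ : Type) (s : Finset σ) (f : σ → PowerSeries ℚ), (∀ i ∈ s, GType (f i)) →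
    GType (∏ i ∈ s, f i))

/-- EVA: values -/
def EvaStmt : Prop :=
  (∀ f : PowerSeries ℚ, GType f → ∃ δ : ℝ, 0 < δ ∧ ∀ x : ℝ, |x| < δ →
    Summable fun k => |((PowerSeries.coeff k f : ℚ) : ℝ)| * |x| ^ k) ∧
  (∀ (p : ℚ[X]) (x : ℝ), ev (p : PowerSeries ℚ) x = (p.map (algebraMap ℚ ℝ)).eval x) ∧
  (∀ (f g : PowerSeries ℚ) (x : ℝ),
    (Summable fun k => |((PowerSeries.coeff k f : ℚ) : ℝ)| * |x| ^ k) →
    (Summable fun k => |((PowerSeries.coeff k g : ℚ) : ℝ)| * |x| ^ k) →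
    (Summable fun k => |((PowerSeries.coeff k (f * g) : ℚ) : ℝ)| * |x| ^ k) ∧
    (Summable fun k => |((PowerSeries.coeff k (f + g) : ℚ) : ℝ)| * |x| ^ k) ∧
    ev (f + g) x = ev f x + ev g x ∧ ev (f * g) x = ev f x * ev g x) ∧
  (∀ (f : PowerSeries ℚ) (x : ℝ), x ≠ 0 →
    (Summable fun k => |((PowerSeries.coeff k f : ℚ) : ℝ)| * |x| ^ k) →
    ∀ y : ℝ, |y| < |x| → AnalyticAt ℝ (ev f) y)

/-- REC: the derivatives of `tr (P h)`, and the degrees -/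
def RecStmt : Prop :=
  (∀ (s d : Type) [Fintype s] [Fintype d] [DecidableEq s] [DecidableEq d] (q : ℚ[X])
    (B : Matrix d d ℚ[X]) (N : Matrix s s ℚ) (P : Matrix s d ℚ[X])
    (φ : ℚ[X] →+* PowerSeries ℚ) (h : Matrix d s (PowerSeries ℚ)),
    (∀ p, dv (φ p) = φ (derivative p)) →
    φ (X * q) • h.map dv = B.map φ * h - φ q • (h * N.map (fun x => PowerSeries.C x)) →
    ∀ k, trace ((Pk q B N P k).map φ * h) = φ (X * q) ^ k * hs k (trace (P.map φ * h))) ∧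
  (∀ (s d : Type) [Fintype s] [Fintype d] (q : ℚ[X])
    (B : Matrix d d ℚ[X]) (N : Matrix s s ℚ) (P : Matrix s d ℚ[X]) (c M : ℕ),
    (X * q).natDegree ≤ c → (∀ i j, (B i j).natDegree ≤ c) → (∀ i j, (P i j).natDegree ≤ M) →
    ∀ k i j, (Pk q B N P k i j).natDegree ≤ M + c * k)

/-- GAL: denominators and size of the `P_k` -/
def GalStmt : Prop :=
  ∀ (d : Type) [Fintype d] [DecidableEq d] (H K : Matrix d d (PowerSeries ℚ)) (N : Matrix d d ℤ)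
    (q : ℤ[X]) (B : Matrix d d ℤ[X]), GSys H K N q B →
    ∃ C : ℕ, 0 < C ∧ ∀ T : ℕ, ∃ D : ℕ, 0 < D ∧ D ≤ C ^ (T + 1) ∧
      ∀ (M : ℕ) (A : ℚ) (P : Matrix d d ℤ[X]), (∀ i j, (P i j).natDegree ≤ M) →
        (∑ i, ∑ j, nrm (zq (P i j))) ≤ A → ∀ k ≤ T,
          (∀ i j, ∃ z : ℤ[X],
            (D : ℚ) • Pk (zq q) (B.map zq) (N.map (fun x => (x : ℚ))) (P.map zq) k i j = zq z) ∧
          (∑ i, ∑ j, nrm (Pk (zq q) (B.map zq) (N.map (fun x => (x : ℚ))) (P.map zq) k i j)) ≤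
            A * 2 ^ M * (C : ℚ) ^ (T + 1)

/-- SIE: Siegel's lemma -/
def SieStmt : Prop :=
  ∀ (Λ : Type) [Fintype Λ] [Nonempty Λ] (h : Λ → PowerSeries ℚ), (∀ l, GType (h l)) →
    ∀ M : ℕ, 1 ≤ M → ∃ C : ℕ, 0 < C ∧ ∀ L : ℕ, 1 ≤ L → ∃ P : Λ → ℤ[X], P ≠ 0 ∧
      (∀ l, (P l).natDegree ≤ M * L ∧ ∀ i, |(P l).coeff i| ≤ (C : ℤ) ^ L) ∧
      ∀ i < (Fintype.card Λ * M - 1) * L, PowerSeries.coeff i (∑ l, zp (P l) * h l) = 0

/-- WRO: Wronskians in a differential domain -/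
def WroStmt : Prop :=
  ∀ (R : Type) [CommRing R] [IsDomain R] [Algebra ℚ R] (d : Derivation ℚ R R),
    (∀ a b : R, b ≠ 0 → a * d b = b * d a → ∃ c : ℚ, a = algebraMap ℚ R c * b) →
    ∀ (m : ℕ) (f : Fin m → R), LinearIndependent ℚ f →
      (Matrix.of fun i j : Fin m => (d^[(i : ℕ)]) (f j)).det ≠ 0

/-- the matrix of all the entries of the `P_k` -/
noncomputable def bigP {d : Type} [Fintype d] (q : ℚ[X]) (B : Matrix d d ℚ[X]) (N : Matrix d d ℚ)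
    (P : Matrix d d ℚ[X]) : Matrix (Fin (Fintype.card (d × d))) (Fin (Fintype.card (d × d))) ℚ[X] :=
  Matrix.of fun k l => Pk q B N P k ((Fintype.equivFin (d × d)).symm l).1
    ((Fintype.equivFin (d × d)).symm l).2

/-- ZEA: first zero estimate -/
def ZeaStmt : Prop :=
  ∀ (d : Type) [Fintype d] [DecidableEq d] (H K : Matrix d d (PowerSeries ℚ)) (N : Matrix d d ℤ)
    (q : ℤ[X]) (B : Matrix d d ℤ[X]), GSys H K N q B → FreeE H →
    ∃ c0 : ℕ, ∀ (M : ℕ) (P : Matrix d d ℚ[X]), (∀ i j, (P i j).natDegree ≤ M) → P ≠ 0 →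
      (∀ i ≤ Fintype.card d * (Fintype.card d - 1) * M + c0,
        PowerSeries.coeff i (∑ i, ∑ j, ((P j i : ℚ[X]) : PowerSeries ℚ) * H i j) = 0) →
      (bigP (zq q) (B.map zq) (N.map (fun x => (x : ℚ))) P).det ≠ 0

/-- ZEB: second zero estimate -/
def ZebStmt : Prop :=
  ∀ (d : Type) [Fintype d] [DecidableEq d] (H K : Matrix d d (PowerSeries ℚ)) (N : Matrix d d ℤ)
    (q : ℤ[X]) (B : Matrix d d ℤ[X]), GSys H K N q B → ∀ c : ℕ, (X * zq q).natDegree ≤ c →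
    (∀ i j, (zq (B i j)).natDegree ≤ c) →
    ∀ (M T τ : ℕ) (P : Matrix d d ℚ[X]) (ξ : ℚ), (∀ i j, (P i j).natDegree ≤ M) →
      (∀ i < T, PowerSeries.coeff i (∑ i, ∑ j, ((P j i : ℚ[X]) : PowerSeries ℚ) * H i j) = 0) →
      (bigP (zq q) (B.map zq) (N.map (fun x => (x : ℚ))) P).det ≠ 0 →
      ξ ≠ 0 → (zq q).eval ξ ≠ 0 →
      Fintype.card (d × d) * M + c * Fintype.card (d × d) ^ 2 ≤ T + τ →
      ∀ u : Matrix d d ℚ, (∀ k < Fintype.card (d × d) + τ,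
        ∑ i, ∑ j, (Pk (zq q) (B.map zq) (N.map (fun x => (x : ℚ))) P k j i).eval ξ * u i j = 0) →
        u = 0

/-- GFN: Theorem G -/
def GfnStmt : Prop :=
  ∀ (d : Type) [Fintype d] [DecidableEq d] (H : Matrix d d (PowerSeries ℚ)), IsG H → FreeE H →
    ∃ n0 : ℕ, ∀ n : ℕ, n0 ≤ n → ∀ a : Matrix d d ℚ,
      ∑ i, ∑ j, (a i j : ℝ) * ev (H i j) (n : ℝ)⁻¹ = 0 → a = 0

/-! ### The hypergeometric system -/

/-- HYP: the differential equation -/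
def HypStmt : Prop :=
  ∀ D : Dat, (∀ i j, PowerSeries.constantCoeff (Hyp D i j) = if i = j then 1 else 0) ∧
    (((1 - C D.lam * X : ℚ[X]) : PowerSeries ℚ) * PowerSeries.X) • (Hyp D).map dv =
      (A0 D).map (fun p => (p : PowerSeries ℚ)) * Hyp D -
        ((1 - C D.lam * X : ℚ[X]) : PowerSeries ℚ) •
          (Hyp D * (Nsh D.r).map (fun x => (x : PowerSeries ℚ)))

/-- HGT: arithmetic of the coefficients -/
def HgtStmt : Prop :=
  ∀ D : Dat, ∀ a l, GType (Hyp D a l)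

/-- HGR: growth of the coefficients -/
def HgrStmt : Prop :=
  ∀ D : Dat, ∃ C : ℕ, ∀ a l k,
    |PowerSeries.coeff k (Hyp D a l)| ≤ (C : ℚ) * ((k : ℚ) + 1) ^ C * D.lam ^ k

/-- HG0: the coefficients of the holomorphic solution -/
def Hg0Stmt : Prop :=
  ∀ D : Dat, (∀ (a : Fin D.r) (k : ℕ), PowerSeries.coeff k (Hyp D a D.fz) =
      (k : ℚ) ^ (a : ℕ) * PowerSeries.coeff k (Hyp D D.fz D.fz)) ∧
    (∀ k : ℕ, PowerSeries.coeff k (Hyp D D.fz D.fz) * (2 * (k : ℚ) + 1) ^ D.s ≤ D.lam ^ k) ∧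
    ∃ c : ℚ, 0 < c ∧ ∀ k : ℕ, 1 ≤ k →
      c * D.lam ^ k ≤ PowerSeries.coeff k (Hyp D D.fz D.fz) * (k : ℚ) ^ D.s

/-- PAI: the pairing -/
def PaiStmt : Prop :=
  ∀ D : Dat, (Jm D)ᵀ = -Jm D ∧
    (Hyp D)ᵀ * (Jm D).map (fun p => (p : PowerSeries ℚ)) * Hyp D =
      (J0 D.r).map (fun x => PowerSeries.C x)

/-- TRA: the translated systems -/
def TraStmt : Prop := ∀ (D : Dat) (κ : ℕ), IsG (Tr D κ)

/-- SYS: symmetric squares and tensor products of systems -/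
def SysStmt : Prop :=
  (∀ (r : ℕ) (H : Matrix (Fin r) (Fin r) (PowerSeries ℚ)), IsG H → IsG (sy H)) ∧
  (∀ (ι m : Type) [Fintype ι] [Fintype m] [DecidableEq ι] [DecidableEq m]
    (H : ι → Matrix m m (PowerSeries ℚ)), (∀ s, IsG (H s)) → IsG (kr H))

/-- VAL: the values of the translated systems -/
def ValStmt : Prop :=
  ∀ (D : Dat) (κ : ℕ), ∀ᶠ w : ℝ in Filter.atTop,
    W D (w - κ) = (Tr D κ).map (fun f => ev f w⁻¹) * en D.r (-Real.log w)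

/-- ANA: the fundamental matrix on `(λ, ∞)` -/
def AnaStmt : Prop :=
  ∀ D : Dat, ∀ w : ℝ, (D.lam : ℝ) < w →
    (∀ i j, AnalyticAt ℝ (fun x => W D x i j) w) ∧ IsUnit (W D w).det ∧
    (W D w)ᵀ * (Jm D).map (fun p => (p.map (algebraMap ℚ ℝ)).eval w⁻¹) * W D w =
      (J0 D.r).map (fun x => (x : ℝ)) ∧
    (∀ i j, HasDerivAt (fun x => W D x i j)
      (-((w - D.lam)⁻¹ *
        (((A0 D).map (fun p => (p.map (algebraMap ℚ ℝ)).eval w⁻¹)) * W D w) i j)) w)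

/-- LTL: the logarithm is transcendental over germs of analytic functions -/
def LtlStmt : Prop :=
  ∀ (M : ℕ) (f : Fin M → ℝ → ℝ), (∀ m, MerG (f m)) →
    (∀ᶠ u in nhdsWithin (0 : ℝ) (Set.Ioi 0), ∑ m, f m u * Real.log u ^ (m : ℕ) = 0) →
    ∀ m, ∀ᶠ u in nhdsWithin (0 : ℝ) (Set.Ioi 0), f m u = 0

/-- CON: the conifold point -/
def ConStmt : Prop :=
  ∀ D : Dat, ∃ (v l : Fin D.r → ℝ) (A : ℝ → Matrix (Fin D.r) (Fin D.r) ℝ),
    (∀ a i, MerG fun u => A u a i) ∧ (∀ a, MerG fun u => (W D (D.lam + u) *ᵥ v) a) ∧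
    ∀ᶠ u in nhdsWithin (0 : ℝ) (Set.Ioi 0),
      W D (D.lam + u) = A u + Real.log u • vecMulVec (W D (D.lam + u) *ᵥ v) l

/-- CYC: the vanishing vector is cyclic -/
def CycStmt : Prop :=
  ∀ (D : Dat) (v l : Fin D.r → ℝ) (A : ℝ → Matrix (Fin D.r) (Fin D.r) ℝ),
    (∀ a i, MerG fun u => A u a i) → (∀ a, MerG fun u => (W D (D.lam + u) *ᵥ v) a) →
    (∀ᶠ u in nhdsWithin (0 : ℝ) (Set.Ioi 0),
      W D (D.lam + u) = A u + Real.log u • vecMulVec (W D (D.lam + u) *ᵥ v) l) →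
    v D.fl ≠ 0 ∧ l D.fz ≠ 0 ∧ l ⬝ᵥ v = 0

/-- PEE: no relation with coefficients polynomial in `w` and `log w` -/
def PeeStmt : Prop :=
  ∀ (D : Dat) (ι : Type) [Fintype ι] [DecidableEq ι] (κ : ι → ℕ), Function.Injective κ →
    ∀ c : (ι → SI D.r) → (ι → SI D.r) → Polynomial (Polynomial ℝ),
      (∀ᶠ w : ℝ in Filter.atTop, ∑ β, ∑ α, evalEval w (Real.log w) (c β α) *
        ∏ i, sy (W D (w - κ i)) (β i) (α i) = 0) → c = 0

/-- FRE: the freeness of the tensor products -/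
def FreStmt : Prop :=
  ∀ (D : Dat) (ι : Type) [Fintype ι] [DecidableEq ι] (κ : ι → ℕ), Function.Injective κ →
    FreeE (kr fun i => sy (Tr D (κ i)))

/-- DEN: late windows contain few exceptional integers, uniformly in `P`, and the exceptional integers
have density zero -/
def DenStmt : Prop :=
  ∀ D : Dat, ∃ n1 : ℕ → ℕ, ∀ P : Matrix (Fin D.r) (Fin D.r) ℂ, IsUnit P.det →
    (∀ K n : ℕ, n1 K ≤ n →
      Nat.card {m : ℕ // Exc D P m ∧ n < m + K ∧ m ≤ n} ≤ (D.r * (D.r + 1) / 2) ^ 2) ∧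
    DensZero {n | Exc D P n}

end Pool.Agent.MT100
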