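import Pool.Agent.MT100.StmtsH

/-! The polynomial parameter: the fibres at `z = 1/φ(n)`, `φ` a rational polynomial with positive leading
coefficient which is somewhere at most `λ` on the real line. -/

set_option autoImplicit false

namespace Pool.Agent.MT100

open Matrix Polynomial Pool.Agent.Helper78_MT

universe u v x

/-- the value of a rational polynomial at a real number -/
noncomputable def pv (φ : ℚ[X]) (x : ℝ) : ℝ := (φ.map (algebraMap ℚ ℝ)).eval x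

/-- admissible parameters -/
structure Adm (D : Dat) (φ : ℚ[X]) : Prop where
  deg : 0 < φ.natDegree
  lead : 0 < φ.leadingCoeff
  low : ∃ x : ℝ, pv φ x ≤ D.lam

/-! ### General pullbacks of systems -/

/-- `zᵈ φ (1/z - κ)`, `d` the degree of `φ` -/
noncomputable def rvp (φ : ℚ[X]) (κ : ℕ) : ℚ[X] :=
  ∑ j ∈ Finset.range (φ.natDegree + 1),
    C (φ.coeff j) * (1 - C (κ : ℚ) * X) ^ j * X ^ (φ.natDegree - j)

/-- the power series `1 / φ (1/z - κ)` -/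
noncomputable def mobp (φ : ℚ[X]) (κ : ℕ) : PowerSeries ℚ :=
  PowerSeries.X ^ φ.natDegree * ((rvp φ κ : ℚ[X]) : PowerSeries ℚ)⁻¹

/-- the power series `- log (zᵈ φ (1/z - κ) / c)`, `c` the leading coefficient: the primitive of the
logarithmic derivative -/
noncomputable def lgp (φ : ℚ[X]) (κ : ℕ) : PowerSeries ℚ :=
  PowerSeries.mk fun k => if k = 0 then 0 else
    PowerSeries.coeff (k - 1) (-((derivative (rvp φ κ) : ℚ[X]) : PowerSeries ℚ) *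
      ((rvp φ κ : ℚ[X]) : PowerSeries ℚ)⁻¹) / (k : ℚ)

/-- `exp (x N)` for a nilpotent matrix `N` -/
noncomputable def eN {d : Type*} [Fintype d] [DecidableEq d] (N : Matrix d d ℤ) {R : Type*}
    [CommRing R] [Algebra ℚ R] (x : R) : Matrix d d R :=
  ∑ j ∈ Finset.range (Fintype.card d),
    (((j.factorial : ℚ)⁻¹) • x ^ j) • (N ^ j).map (fun y : ℤ => (y : R))

/-- ENS: the shift -/
def EnsStmt : Prop :=
  ∀ (r : ℕ) (R : Type) [CommRing R] [Algebra ℚ R] (x : R), eN (Nsh r) x = en r x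

/-- the pullback of the fundamental matrix: its value at `1/w` is the value of the solution at
`φ (w - κ)`, up to a constant and `log w` -/
noncomputable def TrG {d : Type*} [Fintype d] [DecidableEq d] (H : Matrix d d (PowerSeries ℚ))
    (N : Matrix d d ℤ) (φ : ℚ[X]) (κ : ℕ) : Matrix d d (PowerSeries ℚ) :=
  H.map (fun f => f.subst (mobp φ κ)) * eN N (lgp φ κ)

/-- TRG: the pullback is again a system of G-type -/
def TrgStmt : Prop :=
  ∀ (d : Type) [Fintype d] [DecidableEq d] (H K : Matrix d d (PowerSeries ℚ)) (N : Matrix d d ℤ)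
    (q : ℤ[X]) (B : Matrix d d ℤ[X]), GSys H K N q B → ∀ φ : ℚ[X], 0 < φ.natDegree →
    ∀ κ : ℕ, IsG (TrG H N φ κ)

/-- VAG: the values of the pullback -/
def VagStmt : Prop :=
  ∀ (d : Type) [Fintype d] [DecidableEq d] (H : Matrix d d (PowerSeries ℚ)) (N : Matrix d d ℤ),
    IsNilpotent N → (∀ i j, GType (H i j)) → ∀ φ : ℚ[X], 0 < φ.natDegree → 0 < φ.leadingCoeff →
    ∀ κ : ℕ, ∀ᶠ w : ℝ in Filter.atTop,
      H.map (fun f => ev f (pv φ (w - κ))⁻¹) * eN N (-Real.log (pv φ (w - κ))) =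
        (TrG H N φ κ).map (fun f => ev f w⁻¹) *
          eN N (-((φ.natDegree : ℝ) * Real.log w + Real.log (φ.leadingCoeff : ℝ)))

/-- GDN: the windows and the density, for a general family of free systems -/
def GdnStmt : Prop :=
  ∀ (m : Type) [Fintype m] [DecidableEq m] (b : m) (T : ℕ → Matrix m m (PowerSeries ℚ)),
    (∀ κ, IsG (T κ)) →
    (∀ (ι : Type) [Fintype ι] [DecidableEq ι] (κ : ι → ℕ), Function.Injective κ →
      FreeE (kr fun i => T (κ i))) →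
    ∀ thr : ℕ → ℕ, ∃ n1 : ℕ → ℕ, ∀ (S : Set ℕ) (MM : ℕ → Matrix m m ℂ), (∀ n, IsUnit (MM n).det) →
      (∀ K n κ : ℕ, thr K ≤ n → κ < K → κ ≤ n → n - κ ∈ S →
        ∃ q : m → ℚ, q ≠ 0 ∧
          ∑ a, ∑ c, (q a : ℂ) * MM n a c * ((ev (T κ b c) (n : ℝ)⁻¹ : ℝ) : ℂ) = 0) →
      (∀ K n : ℕ, n1 K ≤ n →
        Nat.card {l : ℕ // l ∈ S ∧ n < l + K ∧ l ≤ n} ≤ Fintype.card m ^ 2) ∧ DensZero S

/-! ### The hypergeometric system with a polynomial parameter -/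

/-- the pulled back and translated fundamental matrix -/
noncomputable def TrP (D : Dat) (φ : ℚ[X]) (κ : ℕ) : Matrix (Fin D.r) (Fin D.r) (PowerSeries ℚ) :=
  (Hyp D).map (fun f => f.subst (mobp φ κ)) * en D.r (lgp φ κ)

/-- TRP: IsG -/
def TrpStmt : Prop := ∀ (D : Dat) (φ : ℚ[X]), 0 < φ.natDegree → ∀ κ : ℕ, IsG (TrP D φ κ)

/-- VAP: values -/
def VapStmt : Prop :=
  ∀ (D : Dat) (φ : ℚ[X]), 0 < φ.natDegree → 0 < φ.leadingCoeff → ∀ κ : ℕ,
    ∀ᶠ w : ℝ in Filter.atTop, W D (pv φ (w - κ)) = (TrP D φ κ).map (fun f => ev f w⁻¹) *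
      en D.r (-((φ.natDegree : ℝ) * Real.log w + Real.log (φ.leadingCoeff : ℝ)))

/-- COP: the largest real point `w₁` with `φ (w₁) = λ` -/
def CopStmt : Prop :=
  ∀ (D : Dat) (φ : ℚ[X]), Adm D φ → ∃ w1 : ℝ, pv φ w1 = D.lam ∧ (∀ w, w1 < w → D.lam < pv φ w) ∧
    ∃ (v l : Fin D.r → ℝ) (A : ℝ → Matrix (Fin D.r) (Fin D.r) ℝ),
      (∀ a i, MerG fun u => A u a i) ∧ (∀ a, MerG fun u => (W D (pv φ (w1 + u)) *ᵥ v) a) ∧
      (∀ᶠ u in nhdsWithin (0 : ℝ) (Set.Ioi 0),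
        W D (pv φ (w1 + u)) = A u + Real.log u • vecMulVec (W D (pv φ (w1 + u)) *ᵥ v) l) ∧
      v D.fl ≠ 0 ∧ l D.fz ≠ 0 ∧ l ⬝ᵥ v = 0

/-- PEP: no relation with coefficients polynomial in `w` and `log w` -/
def PepStmt : Prop :=
  ∀ (D : Dat) (φ : ℚ[X]), Adm D φ → ∀ (ι : Type) [Fintype ι] [DecidableEq ι] (κ : ι → ℕ),
    Function.Injective κ → ∀ c : (ι → SI D.r) → (ι → SI D.r) → Polynomial (Polynomial ℝ),
      (∀ᶠ w : ℝ in Filter.atTop, ∑ β, ∑ α, evalEval w (Real.log w) (c β α) *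
        ∏ i, sy (W D (pv φ (w - κ i))) (β i) (α i) = 0) → c = 0

/-- FRP: freeness -/
def FrpStmt : Prop :=
  ∀ (D : Dat) (φ : ℚ[X]), Adm D φ → ∀ (ι : Type) [Fintype ι] [DecidableEq ι] (κ : ι → ℕ),
    Function.Injective κ → FreeE (kr fun i => sy (TrP D φ (κ i)))

/-- the vector of the periods of the form `θᵃ ω` at `z = 1/x`, for the rational structure given by
`P` -/
noncomputable def perx (D : Dat) (P : Matrix (Fin D.r) (Fin D.r) ℂ) (x : ℝ) (a : Fin D.r) :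
    Fin D.r → ℂ :=
  P *ᵥ fun i => ((W D x a i : ℝ) : ℂ)

/-- `x` is exceptional for `P` -/
def Excx (D : Dat) (P : Matrix (Fin D.r) (Fin D.r) ℂ) (x : ℝ) : Prop :=
  (D.lam : ℝ) < x ∧ ∃ q : SI D.r → ℚ, q ≠ 0 ∧
    ∑ β : SI D.r, (q β : ℂ) * (perx D P x D.fz β.1.1 * perx D P x D.fz β.1.2) = 0

/-- DEP: windows and density -/
def DepStmt : Prop :=
  ∀ (D : Dat) (φ : ℚ[X]), Adm D φ → ∃ n1 : ℕ → ℕ, ∀ P : Matrix (Fin D.r) (Fin D.r) ℂ,
    IsUnit P.det →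
    (∀ K n : ℕ, n1 K ≤ n →
      Nat.card {m : ℕ // Excx D P (pv φ m) ∧ n < m + K ∧ m ≤ n} ≤ (D.r * (D.r + 1) / 2) ^ 2) ∧
    DensZero {n : ℕ | Excx D P (pv φ n)}

/-- The Hodge structure `V` of weight `r - 1` on `ℚʳ` has the Hodge filtration given by the periods
`P (θᵇ ω) (1/x)`. -/
def HasPer (D : Dat) (P : Matrix (Fin D.r) (Fin D.r) ℂ) (x : ℝ)
    (V : ℕ → Submodule ℂ (Fin D.r → ℂ)) : Prop :=
  ∀ a : Fin D.r, (⨆ p ∈ Set.Icc (D.r - 1 - a) (D.r - 1), V p) =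
    Submodule.span ℂ {y | ∃ b : Fin D.r, b ≤ a ∧ y = perx D P x b}

/-- MAIN with a polynomial parameter -/
def MainPStmt : Prop :=
  ∀ (D : Dat) (φ : ℚ[X]), Adm D φ → ∃ n1 : ℕ → ℕ, ∀ P : Matrix (Fin D.r) (Fin D.r) ℂ,
    IsUnit P.det → ∃ S : Set ℕ, DensZero S ∧
      (∀ K n : ℕ, n1 K ≤ n →
        Nat.card {m : ℕ // m ∈ S ∧ n < m + K ∧ m ≤ n} ≤ (D.r * (D.r + 1) / 2) ^ 2) ∧
      ∀ n : ℕ, (D.lam : ℝ) < pv φ n → n ∉ S →
        ∀ (E : Matrix (Fin D.r) (Fin D.r) ℚ) (V : ℕ → Submodule ℂ (Fin D.r → ℂ)),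
          PolHodge (D.r - 1) E V → HasPer D P (pv φ n) V →
          (∀ (K : Type u) [Field K] [CharZero K], mtGroup (D.r - 1) V K = similitudes E K) ∧
          ∀ (ℓ : ℕ) [Fact ℓ.Prime] (Γ : Type v) [Group Γ] (ρ : Γ →* GL (Fin D.r) ℚ_[ℓ]),
            BigMonodromy E ρ → ∀ (K : Type u) [Field K] [CharZero K] [Algebra ℚ_[ℓ] K],
              monodromy ρ K = mtGroup (D.r - 1) V K

end Pool.Agent.MT100
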