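import Pool.Agent.MT100.DefsH
import Pool.Agent.MT100.Stmts

/-! Statements of the modules of MT100 (Hodge theoretic and Galois theoretic part), and the main
statement. -/

set_option autoImplicit false

namespace Pool.Agent.MT100

open Matrix Pool.Agent.Helper78_MT

universe u v x

/-- HOD: a polarised Hodge structure of odd weight with `h^{w,0} = 1`, whose period vector satisfies no
rational quadratic equation, has the largest possible Mumford-Tate group. -/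
def HodStmt : Prop :=
  ∀ (n : Type) [Fintype n] [DecidableEq n] (w : ℕ) (E : Matrix n n ℚ)
    (V : ℕ → Submodule ℂ (n → ℂ)) (om : n → ℂ), Odd w → PolHodge w E V →
    V w = Submodule.span ℂ {om} → om ≠ 0 →
    (∀ q : Matrix n n ℚ, qᵀ = q → om ⬝ᵥ (q.map (algebraMap ℚ ℂ) *ᵥ om) = 0 → q = 0) →
    ∀ (K : Type u) [Field K] [CharZero K], mtGroup w V K = similitudes E K

/-- LAD: big local monodromies -/
def LadStmt : Prop :=
  ∀ (n : Type) [Fintype n] [DecidableEq n] (E : Matrix n n ℚ) (F : Type) (Γ : Type v)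
    [Field F] [CharZero F] [Group Γ] (ρ : Γ →* GL n F), Eᵀ = -E → IsUnit E.det →
    2 < Fintype.card n → BigMonodromy E ρ →
    ∀ (K : Type u) [Field K] [CharZero K] [Algebra F K], monodromy ρ K = similitudes E K

/-- The Hodge structure `V` of weight `r - 1` on `ℚʳ` has the Hodge filtration given by the periods
`P (θᵇ ω) (1/n)`. -/
def HasPeriods (D : Dat) (P : Matrix (Fin D.r) (Fin D.r) ℂ) (n : ℕ)
    (V : ℕ → Submodule ℂ (Fin D.r → ℂ)) : Prop :=
  ∀ a : Fin D.r, (⨆ p ∈ Set.Icc (D.r - 1 - a) (D.r - 1), V p) =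
    Submodule.span ℂ {y | ∃ b : Fin D.r, b ≤ a ∧ y = per D P n b}

/-- NVA: polarised Hodge structures with these periods exist -/
def NvaStmt : Prop :=
  ∀ D : Dat, ∃ (P : Matrix (Fin D.r) (Fin D.r) ℂ) (E : Matrix (Fin D.r) (Fin D.r) ℚ) (n0 : ℕ),
    IsUnit P.det ∧ ∀ n : ℕ, n0 ≤ n → ∃ V : ℕ → Submodule ℂ (Fin D.r → ℂ),
      PolHodge (D.r - 1) E V ∧ HasPeriods D P n V

/-- MAIN -/
def MainStmt : Prop :=
  ∀ D : Dat, ∃ n1 : ℕ → ℕ, ∀ P : Matrix (Fin D.r) (Fin D.r) ℂ, IsUnit P.det →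
    ∃ S : Set ℕ, DensZero S ∧
      (∀ K n : ℕ, n1 K ≤ n →
        Nat.card {m : ℕ // m ∈ S ∧ n < m + K ∧ m ≤ n} ≤ (D.r * (D.r + 1) / 2) ^ 2) ∧
      ∀ n : ℕ, (D.lam : ℝ) < n → n ∉ S →
        ∀ (E : Matrix (Fin D.r) (Fin D.r) ℚ) (V : ℕ → Submodule ℂ (Fin D.r → ℂ)),
          PolHodge (D.r - 1) E V → HasPeriods D P n V →
          (∀ (K : Type u) [Field K] [CharZero K], mtGroup (D.r - 1) V K = similitudes E K) ∧
          ∀ (ℓ : ℕ) [Fact ℓ.Prime] (Γ : Type v) [Group Γ] (ρ : Γ →* GL (Fin D.r) ℚ_[ℓ]),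
            BigMonodromy E ρ → ∀ (K : Type u) [Field K] [CharZero K] [Algebra ℚ_[ℓ] K],
              monodromy ρ K = mtGroup (D.r - 1) V K

end Pool.Agent.MT100
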