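import Pool.Agent.MT100.Defs
import Pool.Agent.Helper78_MT.Defs

/-! Polarised Hodge structures of odd weight, their Mumford-Tate groups, and representations with large
local monodromies. -/

set_option autoImplicit false

namespace Pool.Agent.MT100

open Matrix Pool.Agent.Helper78_MT

universe u v x

variable {n : Type*} [Fintype n] [DecidableEq n]

/-- A polarised rational Hodge structure of weight `w` on `ℚⁿ`: `V p` is the subspace `V^{p,w-p}` of
`ℂⁿ`, and `E` is the matrix of the polarisation. -/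
structure PolHodge (w : ℕ) (E : Matrix n n ℚ) (V : ℕ → Submodule ℂ (n → ℂ)) : Prop where
  top : ∀ p, w < p → V p = ⊥
  indep : iSupIndep V
  span : ⨆ p, V p = ⊤
  conj : ∀ p ≤ w, ∀ x ∈ V p, star x ∈ V (w - p)
  symm : Eᵀ = (-1 : ℚ) ^ w • E
  orth : ∀ p q, p + q ≠ w → ∀ x ∈ V p, ∀ y ∈ V q, x ⬝ᵥ (E.map (algebraMap ℚ ℂ) *ᵥ y) = 0
  pos : ∀ p ≤ w, ∀ x ∈ V p, x ≠ 0 → ∃ t : ℝ, 0 < t ∧
    Complex.I ^ p * (-Complex.I) ^ (w - p) * (x ⬝ᵥ (E.map (algebraMap ℚ ℂ) *ᵥ star x)) = t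

/-- The real matrices (seen over `ℂ`) by which the Deligne torus acts: `a` acts on `V^{p,w-p}` by the
product of `a ^ p` and the conjugate of `a ^ (w - p)`. -/
def hodgeTorus (w : ℕ) (V : ℕ → Submodule ℂ (n → ℂ)) : Set (Matrix n n ℂ) :=
  {M | ∃ a : ℂ, a ≠ 0 ∧ ∀ p ≤ w, ∀ x ∈ V p, M *ᵥ x = (a ^ p * star a ^ (w - p)) • x}

/-- The `K`-points of the Mumford-Tate group: the smallest algebraic subgroup over `ℚ` of `GL_n` which
contains the Deligne torus. -/
def mtGroup (w : ℕ) (V : ℕ → Submodule ℂ (n → ℂ)) (K : Type*) [Field K] [CharZero K] :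
    Set (Matrix n n K) :=
  {M | ∀ I : Set (MvPolynomial (n × n) ℚ), IsAlgSubgroup I →
    (∀ T ∈ hodgeTorus w V, T ∈ zeros I ℂ) → M ∈ zeros I K}

/-- The representation takes values in the similitudes of `E`, with a multiplier which is not a root of
unity, the subgroups of finite index act irreducibly, and the image contains a transvection. -/
structure BigMonodromy {F Γ : Type*} [Field F] [CharZero F] [Group Γ] (E : Matrix n n ℚ)
    (ρ : Γ →* GL n F) : Prop where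
  simil : ∀ γ, (ρ γ : Matrix n n F) ∈ similitudes E F
  mult : ∃ (γ : Γ) (c : F), (ρ γ : Matrix n n F)ᵀ * E.map (algebraMap ℚ F) * (ρ γ : Matrix n n F) =
    c • E.map (algebraMap ℚ F) ∧ ∀ m : ℕ, 0 < m → c ^ m ≠ 1
  irred : ∀ Γ' : Subgroup Γ, Γ'.FiniteIndex → ∀ U : Submodule F (n → F),
    (∀ γ ∈ Γ', ∀ x ∈ U, (ρ γ : Matrix n n F) *ᵥ x ∈ U) → U = ⊥ ∨ U = ⊤
  trans : ∃ γ, ((ρ γ : Matrix n n F) - 1).rank = 1

end Pool.Agent.MT100
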