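import Pool.Agent.MT100.StmtsH

/-! Assembly of the main theorem from the density theorem, the Hodge theoretic and the Galois theoretic
part. -/

set_option autoImplicit false

namespace Pool.Agent.MT100

open Matrix Pool.Agent.Helper78_MT

universe u v

variable {n : Type} [Fintype n] [DecidableEq n]

/-- the polarisation is nondegenerate -/
theorem PolHodge.nondeg {w : ℕ} {E : Matrix n n ℚ} {V : ℕ → Submodule ℂ (n → ℂ)}
    (h : PolHodge w E V) : IsUnit E.det := by
  classical
  rw [isUnit_iff_ne_zero]
  intro h0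
  obtain ⟨x, hx, hEx⟩ := Matrix.exists_mulVec_eq_zero_iff.mpr h0
  -- the complexification
  set y : n → ℂ := fun i => ((x i : ℚ) : ℂ) with hy
  have hstar : star y = y := by
    funext i
    simp [hy]
  have hEy : E.map (algebraMap ℚ ℂ) *ᵥ y = 0 := by
    funext i
    have := congrFun hEx i
    simp only [Matrix.mulVec, dotProduct, Matrix.map_apply, Pi.zero_apply] at this ⊢
    simp only [hy]
    have h2 : ((∑ j, E i j * x j : ℚ) : ℂ) = 0 := by rw [this]; simp
    rw [← h2]
    push_cast
    rfl
  have hyne : y ≠ 0 := by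
    intro hc
    apply hx
    funext i
    have := congrFun hc i
    simp only [hy, Pi.zero_apply] at this
    exact_mod_cast this
  -- decomposition
  have hmem : y ∈ ⨆ p, V p := by rw [h.span]; trivial
  obtain ⟨f, hf, hsum⟩ := (Submodule.mem_iSup_iff_exists_finsupp _ _).mp hmem
  have hind := h.indep
  -- star of components
  have hfw : ∀ p, w < p → f p = 0 := by
    intro p hp
    have := hf p
    rw [h.top p hp] at this
    simpa using this
  have hsum' : ∑ p ∈ Finset.range (w + 1), f p = y := by
    rw [← hsum, Finsupp.sum]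
    symm
    apply Finset.sum_subset_zero_on_sdiff (M := n → ℂ) (s₁ := f.support)
    · intro p hp
      rw [Finset.mem_range]
      by_contra hc
      exact (Finsupp.mem_support_iff.mp hp) (hfw p (by omega))
    · intro p hp
      rw [Finset.mem_sdiff] at hp
      by_contra hc
      exact hp.2 (Finsupp.mem_support_iff.mpr hc)
    · intro p _
      rfl
  -- some component is nonzero
  obtain ⟨p, hp, hfp⟩ : ∃ p ∈ Finset.range (w + 1), f p ≠ 0 := by
    by_contra hc
    push Not at hc
    apply hyne
    rw [← hsum']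
    exact Finset.sum_eq_zero hc
  have hpw : p ≤ w := by
    rw [Finset.mem_range] at hp; omega
  -- star y = y gives f (w - p) = star (f p)
  have hst : ∑ q ∈ Finset.range (w + 1), (star (f (w - q)) - f q) = 0 := by
    rw [Finset.sum_sub_distrib, hsum']
    have h1 : ∑ q ∈ Finset.range (w + 1), star (f (w - q)) =
        ∑ q ∈ Finset.range (w + 1), star (f q) := by
      have := Finset.sum_range_reflect (fun q => star (f q)) (w + 1)
      rw [← this]
      apply Finset.sum_congr rfl
      intro q hq
      rfl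
    rw [h1]
    have h2 : ∑ q ∈ Finset.range (w + 1), star (f q) = star y := by
      rw [← hsum', star_sum]
    rw [h2, hstar, sub_self]
  have hcomp : ∀ q ∈ Finset.range (w + 1), star (f (w - q)) - f q = 0 := by
    have hmemq : ∀ q ∈ Finset.range (w + 1), star (f (w - q)) - f q ∈ V q := by
      intro q hq
      rw [Finset.mem_range] at hq
      apply Submodule.sub_mem _ _ (hf q)
      have := h.conj (w - q) (by omega) (f (w - q)) (hf _)
      rwa [show w - (w - q) = q by omega] at this
    intro q hq
    have h3 := (iSupIndep_iff_finsetSum_eq_zero_imp_eq_zero V).mp hind (Finset.range (w + 1))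
      (fun q => star (f (w - q)) - f q) hmemq hst
    exact h3 q hq
  have hqp : f (w - p) = star (f p) := by
    have h1 := hcomp (w - p) (by rw [Finset.mem_range]; omega)
    rw [show w - (w - p) = p by omega, sub_eq_zero] at h1
    exact h1.symm
  have hzero : f p ⬝ᵥ (E.map (algebraMap ℚ ℂ) *ᵥ y) = 0 := by rw [hEy, dotProduct_zero]
  rw [← hsum', Matrix.mulVec_sum, dotProduct_sum] at hzero
  rw [Finset.sum_eq_single (w - p)] at hzero
  · obtain ⟨t, ht, h2⟩ := h.pos p hpw (f p) (hf p) hfp
    rw [hqp] at hzero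
    rw [hzero, mul_zero] at h2
    have : (t : ℂ) = 0 := h2.symm
    rw [Complex.ofReal_eq_zero] at this
    linarith
  · intro q hq hne
    rw [Finset.mem_range] at hq
    exact h.orth p q (by omega) _ (hf p) _ (hf q)
  · intro hc
    exact absurd (Finset.mem_range.mpr (by omega)) hc

/-- a symmetric rational matrix as a quadratic form on pairs -/
theorem quad_sum {r : ℕ} (Q : Matrix (Fin r) (Fin r) ℚ) (hQ : Qᵀ = Q) (om : Fin r → ℂ) :
    ∑ β : SI r, (((if β.1.1 = β.1.2 then Q β.1.1 β.1.2 else 2 * Q β.1.1 β.1.2 : ℚ)) : ℂ) *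
      (om β.1.1 * om β.1.2) = om ⬝ᵥ (Q.map (algebraMap ℚ ℂ) *ᵥ om) := by
  have hs : ∀ i j, Q j i = Q i j := fun i j => congrFun (congrFun hQ i) j
  have h1 : om ⬝ᵥ (Q.map (algebraMap ℚ ℂ) *ᵥ om) =
      ∑ p : Fin r × Fin r, (Q p.1 p.2 : ℂ) * (om p.1 * om p.2) := by
    rw [Fintype.sum_prod_type]
    simp only [dotProduct, Matrix.mulVec, Matrix.map_apply, Finset.mul_sum, eq_ratCast]
    apply Finset.sum_congr rfl
    intro i _
    apply Finset.sum_congr rfl
    intro j _
    ring
  rw [h1]
  have h2 : ∑ p : Fin r × Fin r, (Q p.1 p.2 : ℂ) * (om p.1 * om p.2) =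
      ∑ p : Fin r × Fin r with p.1 ≤ p.2,
        (((if p.1 = p.2 then Q p.1 p.2 else 2 * Q p.1 p.2 : ℚ)) : ℂ) * (om p.1 * om p.2) := by
    rw [← Finset.sum_filter_add_sum_filter_not Finset.univ (fun p : Fin r × Fin r => p.1 ≤ p.2)]
    have h3 : ∑ p : Fin r × Fin r with ¬ p.1 ≤ p.2, (Q p.1 p.2 : ℂ) * (om p.1 * om p.2) =
        ∑ p : Fin r × Fin r with p.1 < p.2, (Q p.1 p.2 : ℂ) * (om p.1 * om p.2) := by
      apply Finset.sum_nbij' (fun p => (p.2, p.1)) (fun p => (p.2, p.1))
      · intro p hp
        simp only [Finset.mem_filter, Finset.mem_univ, true_and, not_le] at hp ⊢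
        exact hp
      · intro p hp
        simp only [Finset.mem_filter, Finset.mem_univ, true_and, not_le] at hp ⊢
        exact hp
      · intro p _
        rfl
      · intro p _
        rfl
      · intro p _
        rw [hs p.2 p.1]
        ring
    rw [h3]
    have h4 : ∑ p : Fin r × Fin r with p.1 ≤ p.2, (Q p.1 p.2 : ℂ) * (om p.1 * om p.2) +
        ∑ p : Fin r × Fin r with p.1 < p.2, (Q p.1 p.2 : ℂ) * (om p.1 * om p.2) =
        ∑ p : Fin r × Fin r with p.1 ≤ p.2, ((Q p.1 p.2 : ℂ) * (om p.1 * om p.2) +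
          (if p.1 < p.2 then (Q p.1 p.2 : ℂ) * (om p.1 * om p.2) else 0)) := by
      rw [Finset.sum_add_distrib]
      congr 1
      rw [← Finset.sum_filter, Finset.filter_filter]
      apply Finset.sum_congr _ (fun _ _ => rfl)
      ext p
      simp only [Finset.mem_filter, Finset.mem_univ, true_and]
      exact ⟨fun h => ⟨le_of_lt h, h⟩, fun h => h.2⟩
    rw [h4]
    apply Finset.sum_congr rfl
    intro p hp
    simp only [Finset.mem_filter, Finset.mem_univ, true_and] at hp
    rcases eq_or_lt_of_le hp with h | h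
    · rw [if_pos h, if_neg (by rw [h]; exact lt_irrefl _)]
      ring
    · rw [if_neg (ne_of_lt h), if_pos h]
      push_cast
      ring
  rw [h2]
  exact (Finset.sum_subtype (Finset.univ.filter fun p : Fin r × Fin r => p.1 ≤ p.2)
    (fun p => by simp) (fun p : Fin r × Fin r =>
      (((if p.1 = p.2 then Q p.1 p.2 else 2 * Q p.1 p.2 : ℚ)) : ℂ) * (om p.1 * om p.2))).symm

/-- the main theorem, from its three parts -/
theorem main (hD : DenStmt) (hH : HodStmt.{u}) (hL : LadStmt.{u, v}) : MainStmt.{u, v} := by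
  intro D
  obtain ⟨n1, hn1⟩ := hD D
  refine ⟨n1, fun P hP => ⟨{n | Exc D P n}, (hn1 P hP).2, (hn1 P hP).1, ?_⟩⟩
  intro n hn hS E V hV hF
  set w := D.r - 1 with hw
  have hr4 : 4 ≤ D.r := by
    have := D.two_le
    show 4 ≤ 2 * D.s
    omega
  have hodd : Odd w := by
    have h2 : D.r = 2 * D.s := rfl
    have := D.two_le
    exact ⟨D.s - 1, by omega⟩
  set om := per D P n D.fz with hom
  -- the first step of the filtration
  have hVw : V w = Submodule.span ℂ {om} := by
    have h0 := hF D.fz
    have h1 : (⨆ p ∈ Set.Icc (D.r - 1 - (D.fz : ℕ)) (D.r - 1), V p) = V w := by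
      have : Set.Icc (D.r - 1 - (D.fz : ℕ)) (D.r - 1) = {w} := by
        have : ((D.fz : Fin D.r) : ℕ) = 0 := rfl
        rw [this, Nat.sub_zero]
        exact Set.Icc_self w
      rw [this]
      simp
    rw [h1] at h0
    rw [h0]
    congr 1
    ext y
    simp only [Set.mem_setOf_eq, Set.mem_singleton_iff]
    constructor
    · rintro ⟨b, hb, rfl⟩
      have : b = D.fz := by
        apply le_antisymm hb
        exact Nat.zero_le _
      rw [this]
    · rintro rfl
      exact ⟨D.fz, le_refl _, rfl⟩
  have hne : ∀ q : SI D.r → ℚ, q ≠ 0 → ∑ β : SI D.r, (q β : ℂ) * (om β.1.1 * om β.1.2) ≠ 0 := by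
    intro q hq h0
    exact hS ⟨hn, q, hq, h0⟩
  have hom0 : om ≠ 0 := by
    intro h0
    apply hne (fun _ => 1)
    · intro hc
      have := congrFun hc ⟨(D.fz, D.fz), le_refl _⟩
      simp at this
    · rw [h0]
      simp
  have hquad : ∀ q : Matrix (Fin D.r) (Fin D.r) ℚ, qᵀ = q →
      om ⬝ᵥ (q.map (algebraMap ℚ ℂ) *ᵥ om) = 0 → q = 0 := by
    intro q hq h0
    by_contra hc
    apply hne (fun β => if β.1.1 = β.1.2 then q β.1.1 β.1.2 else 2 * q β.1.1 β.1.2)
    · intro hz
      apply hc
      have hle : ∀ i j : Fin D.r, i ≤ j → q i j = 0 := by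
        intro i j hij
        have := congrFun hz ⟨(i, j), hij⟩
        simp only [Pi.zero_apply] at this
        split_ifs at this with h
        · exact this
        · linarith
      ext i j
      rcases le_total i j with h | h
      · exact hle i j h
      · have : q i j = q j i := congrFun (congrFun hq j) i
        rw [this]
        exact hle j i h
    · rw [quad_sum q hq om]
      exact h0
  have hmt : ∀ (K : Type u) [Field K] [CharZero K], mtGroup w V K = similitudes E K :=
    fun K _ _ => hH (Fin D.r) w E V om hodd hV hVw hom0 hquad K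
  refine ⟨hmt, ?_⟩
  intro ℓ _ Γ _ ρ hρ K _ _ _
  rw [hmt K]
  have hsym : Eᵀ = -E := by
    rw [hV.symm, hodd.neg_one_pow, neg_smul, one_smul]
  exact hL (Fin D.r) E ℚ_[ℓ] Γ ρ hsym hV.nondeg (by rw [Fintype.card_fin]; omega) hρ K

end Pool.Agent.MT100
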