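import Mathlib

/-! Definitions for MT100: the hypergeometric Calabi-Yau systems, their fundamental matrices, G-type
power series. -/

set_option autoImplicit false

namespace Pool.Agent.MT100

open Matrix

/-! ### Symmetric square and tensor products of matrices -/

/-- pairs of indices `i ≤ j` -/
abbrev SI (r : ℕ) : Type := {p : Fin r × Fin r // p.1 ≤ p.2}

/-- the symmetric square of a matrix, in the coordinates `i ≤ j` (action `S ↦ M S Mᵀ` on symmetric
matrices) -/
def sy {r : ℕ} {R : Type*} [CommRing R] (M : Matrix (Fin r) (Fin r) R) :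
    Matrix (SI r) (SI r) R :=
  fun β α => M β.1.1 α.1.1 * M β.1.2 α.1.2 +
    if α.1.1 < α.1.2 then M β.1.1 α.1.2 * M β.1.2 α.1.1 else 0

/-- the tensor product of a finite family of matrices -/
def kr {ι m : Type*} [Fintype ι] {R : Type*} [CommRing R] (A : ι → Matrix m m R) :
    Matrix (ι → m) (ι → m) R :=
  fun β α => ∏ s, A s (β s) (α s)

/-! ### Power series of G-type -/

/-- an integral polynomial as a rational polynomial -/
noncomputable def zq (p : Polynomial ℤ) : Polynomial ℚ := p.map (Int.castRingHom ℚ)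

/-- an integral polynomial as a power series -/
noncomputable def zp (p : Polynomial ℤ) : PowerSeries ℚ := ((zq p : Polynomial ℚ) : PowerSeries ℚ)

/-- the value at a real number -/
noncomputable def ev (f : PowerSeries ℚ) (x : ℝ) : ℝ :=
  ∑' k, ((PowerSeries.coeff k f : ℚ) : ℝ) * x ^ k

/-- the coefficients and their common denominators grow at most geometrically -/
def GType (f : PowerSeries ℚ) : Prop :=
  ∃ C : ℕ, 0 < C ∧ ∀ k : ℕ, |PowerSeries.coeff k f| ≤ (C : ℚ) ^ (k + 1) ∧
    ∃ D : ℕ, 0 < D ∧ D ≤ C ^ (k + 1) ∧ ∀ i ≤ k, ∃ z : ℤ, (D : ℚ) * PowerSeries.coeff i f = z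

/-- the divided derivative `Dᵏ/k!` -/
noncomputable def hs (k : ℕ) (f : PowerSeries ℚ) : PowerSeries ℚ :=
  PowerSeries.mk fun i => ((i + k).choose k : ℚ) * PowerSeries.coeff (i + k) f

/-- the derivative of power series -/
noncomputable abbrev dv (f : PowerSeries ℚ) : PowerSeries ℚ := PowerSeries.derivative ℚ f

/-- `H` (with inverse `K`) is a fundamental matrix, up to `z ^ N`, of the system with the matrix
`B / (z q)`, and has entries of G-type. -/
structure GSys {d : Type*} [Fintype d] [DecidableEq d] (H K : Matrix d d (PowerSeries ℚ))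
    (N : Matrix d d ℤ) (q : Polynomial ℤ) (B : Matrix d d (Polynomial ℤ)) : Prop where
  inv : H * K = 1
  one : ∀ i j, PowerSeries.constantCoeff (H i j) = if i = j then 1 else 0
  nil : IsNilpotent N
  q0 : q ≠ 0
  ode : (zp q * PowerSeries.X) • H.map dv =
    B.map zp * H - zp q • (H * N.map (fun x => (x : PowerSeries ℚ)))
  gH : ∀ i j, GType (H i j)
  gK : ∀ i j, GType (K i j)

/-- some system with fundamental matrix `H` exists -/
def IsG {d : Type*} [Fintype d] [DecidableEq d] (H : Matrix d d (PowerSeries ℚ)) : Prop :=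
  ∃ K N q B, GSys H K N q B

/-- the entries of `H` are linearly independent over the rational functions -/
def FreeE {d : Type*} [Fintype d] (H : Matrix d d (PowerSeries ℚ)) : Prop :=
  ∀ p : Matrix d d (Polynomial ℚ),
    ∑ i, ∑ j, ((p j i : Polynomial ℚ) : PowerSeries ℚ) * H i j = 0 → p = 0

/-- the coefficient matrices of the derivatives: `(zq)ᵏ (Dᵏ/k!) tr (P h) = tr (Pₖ h)` if
`z q h' = B h - q h N` -/
noncomputable def Pk {s d : Type*} [Fintype s] [Fintype d] (q : Polynomial ℚ)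
    (B : Matrix d d (Polynomial ℚ)) (N : Matrix s s ℚ) (P : Matrix s d (Polynomial ℚ)) :
    ℕ → Matrix s d (Polynomial ℚ)
  | 0 => P
  | k + 1 => ((k + 1 : ℚ)⁻¹) • ((Polynomial.X * q) • (Pk q B N P k).map Polynomial.derivative +
      Pk q B N P k * B - q • (N.map Polynomial.C * Pk q B N P k) -
      (k : ℚ) • (Polynomial.derivative (Polynomial.X * q) • Pk q B N P k))

/-- the sum of the absolute values of the coefficients -/
noncomputable def nrm (p : Polynomial ℚ) : ℚ := ∑ i ∈ p.support, |p.coeff i|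

/-! ### The hypergeometric system `θʳ - λ z ∏ (θ + αᵢ) (θ + 1 - αᵢ)`, `r = 2 s` -/

/-- a hypergeometric datum -/
structure Dat where
  /-- half the order -/
  s : ℕ
  two_le : 2 ≤ s
  /-- half of the exponents at infinity, the others are `1 - αᵢ` -/
  al : Fin s → ℚ
  al_pos : ∀ i, 0 < al i
  al_lt : ∀ i, al i < 1
  /-- the scale: the conifold point is `z = 1/λ` -/
  lam : ℚ
  lam_pos : 0 < lam

/-- the order -/
abbrev Dat.r (D : Dat) : ℕ := 2 * D.s

theorem Dat.r_pos (D : Dat) : 0 < D.r := by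
  have := D.two_le
  show 0 < 2 * D.s
  omega

/-- the first index -/
def Dat.fz (D : Dat) : Fin D.r := ⟨0, D.r_pos⟩

/-- the last index -/
def Dat.fl (D : Dat) : Fin D.r := ⟨D.r - 1, Nat.sub_lt D.r_pos Nat.one_pos⟩

/-- the coefficients `A_k(ε)` of the Frobenius solution -/
noncomputable def Ak (D : Dat) (k : ℕ) : PowerSeries ℚ :=
  ∏ j ∈ Finset.range k, (PowerSeries.C D.lam * ∏ i : Fin D.s,
    ((PowerSeries.C ((j : ℚ) + D.al i) + PowerSeries.X) *
      (PowerSeries.C ((j : ℚ) + (1 - D.al i)) + PowerSeries.X) *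
      ((PowerSeries.C ((j : ℚ) + 1) + PowerSeries.X)⁻¹) ^ 2))

/-- the holomorphic part of the fundamental matrix: the entry `(a,l)` is
`∑ₖ zᵏ [εˡ] ((k + ε)ᵃ A_k(ε))` -/
noncomputable def Hyp (D : Dat) : Matrix (Fin D.r) (Fin D.r) (PowerSeries ℚ) :=
  fun a l => PowerSeries.mk fun k =>
    PowerSeries.coeff (l : ℕ) ((PowerSeries.C (k : ℚ) + PowerSeries.X) ^ (a : ℕ) * Ak D k)

/-- the shift -/
def Nsh (r : ℕ) : Matrix (Fin r) (Fin r) ℤ := fun l i => if (l : ℕ) + 1 = i then 1 else 0

/-- `exp (x N)`, `N` the shift -/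
noncomputable def en (r : ℕ) {R : Type*} [CommRing R] [Algebra ℚ R] (x : R) :
    Matrix (Fin r) (Fin r) R :=
  fun l i => if l ≤ i then ((((i : ℕ) - (l : ℕ)).factorial : ℚ)⁻¹) • x ^ ((i : ℕ) - (l : ℕ)) else 0

/-- the fundamental matrix of the hypergeometric system at `z = 1/w`, for `w > λ`; the row `a` is
`θᵃ` of the Frobenius basis -/
noncomputable def W (D : Dat) (w : ℝ) : Matrix (Fin D.r) (Fin D.r) ℝ :=
  (Hyp D).map (fun f => ev f w⁻¹) * en D.r (-Real.log w)

/-- `z/(1 - κ z)` -/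
noncomputable def mob (κ : ℕ) : PowerSeries ℚ :=
  PowerSeries.X * PowerSeries.mk fun k => (κ : ℚ) ^ k

/-- `- log (1 - κ z)` -/
noncomputable def lgs (κ : ℕ) : PowerSeries ℚ := PowerSeries.mk fun k => (κ : ℚ) ^ k / (k : ℚ)

/-- the translated fundamental matrix: `W (w - κ) = Tr κ (1/w) exp (- log w N)` -/
noncomputable def Tr (D : Dat) (κ : ℕ) : Matrix (Fin D.r) (Fin D.r) (PowerSeries ℚ) :=
  (Hyp D).map (fun f => f.subst (mob κ)) * en D.r (lgs κ)

/-- the polynomial `∏ (θ + αᵢ) (θ + 1 - αᵢ)` -/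
noncomputable def cf (D : Dat) : Polynomial ℚ :=
  ∏ i, ((Polynomial.X + Polynomial.C (D.al i)) * (Polynomial.X + Polynomial.C (1 - D.al i)))

/-- the matrix of the system: `(1 - λz) θ H = A0 H - (1 - λz) H N` -/
noncomputable def A0 (D : Dat) : Matrix (Fin D.r) (Fin D.r) (Polynomial ℚ) := fun a b =>
  (if (a : ℕ) + 1 = b then 1 - Polynomial.C D.lam * Polynomial.X else 0) +
    (if (a : ℕ) + 1 = D.r then Polynomial.C (D.lam * (cf D).coeff b) * Polynomial.X else 0)

/-- the exponents at infinity in symmetric order: `βⱼ + β_{r-1-j} = 1` -/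
def bet (D : Dat) (j : ℕ) : ℚ :=
  if h : j < D.s then D.al ⟨j, h⟩
  else if h : 2 * D.s - 1 - j < D.s then 1 - D.al ⟨2 * D.s - 1 - j, h⟩ else 0

/-- `∏_{j<i} (θ + βⱼ)` -/
noncomputable def pp (D : Dat) (i : ℕ) : Polynomial ℚ :=
  ∏ j ∈ Finset.range i, (Polynomial.X + Polynomial.C (bet D j))

/-- the constant matrix of the pairing -/
def J0 (r : ℕ) : Matrix (Fin r) (Fin r) ℚ := fun a b =>
  if (a : ℕ) + b + 1 = r then (-1) ^ (a : ℕ) else 0

/-- the matrix of the pairing on the solutions -/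
noncomputable def Jm (D : Dat) : Matrix (Fin D.r) (Fin D.r) (Polynomial ℚ) := fun a b =>
  Polynomial.C (J0 D.r a b) -
    Polynomial.C (D.lam * ∑ i ∈ Finset.range D.r,
      (-1) ^ i * (pp D i).coeff a * (pp D (D.r - 1 - i)).coeff b) * Polynomial.X

/-! ### Real functions near a point -/

/-- near `0+` the function is a real analytic function divided by a power of `u` -/
def MerG (f : ℝ → ℝ) : Prop :=
  ∃ (k : ℕ) (g : ℝ → ℝ), AnalyticAt ℝ g 0 ∧ ∀ᶠ u in nhdsWithin 0 (Set.Ioi 0), u ^ k * f u = g u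

/-- the vector of the periods of the form `θᵃ ω` at `z = 1/n`, for the rational structure given by
`P` -/
noncomputable def per (D : Dat) (P : Matrix (Fin D.r) (Fin D.r) ℂ) (n : ℕ) (a : Fin D.r) :
    Fin D.r → ℂ :=
  P *ᵥ fun i => ((W D n a i : ℝ) : ℂ)

/-- `n` is exceptional for `P`: a nonzero rational quadratic form vanishes at the first period
vector -/
def Exc (D : Dat) (P : Matrix (Fin D.r) (Fin D.r) ℂ) (n : ℕ) : Prop :=
  (D.lam : ℝ) < n ∧ ∃ q : SI D.r → ℚ, q ≠ 0 ∧
    ∑ β : SI D.r, (q β : ℂ) * (per D P n D.fz β.1.1 * per D P n D.fz β.1.2) = 0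

/-- natural density zero -/
def DensZero (S : Set ℕ) : Prop :=
  Filter.Tendsto (fun X : ℕ => (Nat.card {n : ℕ // n ∈ S ∧ n ≤ X} : ℝ) / X) Filter.atTop (nhds 0)

end Pool.Agent.MT100
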